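import Pool.Agent.Helper78.LK.Goals

/-!
# Project LK (MP_5a63b6_lc), packet CUV
-/

set_option autoImplicit false

namespace Pool.Agent.Helper12.LK

open Pool.Agent.Helper50.KP Pool.Agent.Helper78.LK

theorem st (n : ℕ) (u v l r : Word) (h : Pl l r ∨ Pl r l ∨ Rd l r ∨ Rd r l)
    (h1 : (str (u ++ l ++ v) n).isSome) (h2 : (str (u ++ r ++ v) n).isSome) :
    Teq n (u ++ l ++ v) (u ++ r ++ v) :=
  Relation.ReflTransGen.single ⟨h1, h2, u, v, l, r, h, rfl, rfl⟩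

/-- cup -/
abbrev c (i : ℕ) : Ev := (.cup, i)
/-- cap -/
abbrev p (i : ℕ) : Ev := (.cap, i)
/-- crossing -/
abbrev x (i : ℕ) : Ev := (.X true, i)
/-- crossing -/
abbrev y (i : ℕ) : Ev := (.X false, i)

theorem cuv1 : Teq 0 [c 0, c 2, x 0, y 2] [c 0, c 2] :=
  (st 0 [c 0] [y 2] [c 2, x 0] [x 0, c 2] (.inr (.inl (.comm (.X true) .cup 0 0))) rfl rfl).trans
  ((st 0 [] [c 2, y 2] [c 0, x 0] [c 0] (.inr (.inr (.inl (.r1cup 0 true)))) rfl rfl).trans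
  (st 0 [c 0] [] [c 2, y 2] [c 2] (.inr (.inr (.inl (.r1cup 2 false)))) rfl rfl))

theorem cuv2 : Teq 0 [c 0, c 2, x 1, x 0, y 2, y 1] [c 0, c 2] :=
  (st 0 [c 0] [x 0, y 2, y 1] [c 2, x 1] [c 1, y 2] (.inl (.pcup 1 true)) rfl rfl).trans
  ((st 0 [c 0, c 1] [y 2, y 1] [y 2, x 0] [x 0, y 2]
    (.inr (.inl (.comm (.X true) (.X false) 0 0))) rfl rfl).trans
  ((st 0 [c 0] [y 2, y 2, y 1] [c 1, x 0] [c 0, y 1] (.inl (.pcup 0 true)) rfl rfl).trans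
  ((st 0 [] [y 1, y 2, y 2, y 1] [c 0, c 0] [c 0, c 2]
    (.inr (.inl (.comm .cup .cup 0 0))) rfl rfl).trans
  ((st 0 [c 0] [y 2, y 2, y 1] [c 2, y 1] [c 1, x 2] (.inl (.pcup 1 false)) rfl rfl).trans
  ((st 0 [c 0, c 1] [y 2, y 1] [x 2, y 2] [] (.inr (.inr (.inl (.r2 2 true)))) rfl rfl).trans
  ((st 0 [c 0] [y 1] [c 1, y 2] [c 2, x 1] (.inr (.inl (.pcup 1 true))) rfl rfl).trans
  (st 0 [c 0, c 2] [] [x 1, y 1] [] (.inr (.inr (.inl (.r2 1 true)))) rfl rfl)))))))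

theorem cuv3 : Teq 0 [c 0, c 2, y 1, p 0, p 0] [c 0, p 0] :=
  (st 0 [c 0] [p 0, p 0] [c 2, y 1] [c 1, x 2] (.inl (.pcup 1 false)) rfl rfl).trans
  ((st 0 [c 0, c 1] [p 0] [x 2, p 0] [p 0, x 0]
    (.inr (.inl (.comm .cap (.X true) 0 0))) rfl rfl).trans
  ((st 0 [c 0] [x 0, p 0] [c 1, p 0] [] (.inl (.zag 0)) rfl rfl).trans
  (st 0 [] [p 0] [c 0, x 0] [c 0] (.inr (.inr (.inl (.r1cup 0 true)))) rfl rfl)))

theorem gCUV (_hTQ : TQ) : CUV := ⟨cuv1, cuv2, cuv3⟩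

end Pool.Agent.Helper12.LK
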